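import Pool.Agent.W345.VO.Full

/-!
# MP_11a9fb_al, Q1: disproof

There is a simple rational vertex operator algebra `V` (with `V_n = 0` for `n < 0`) with
`V_1 ≠ 0` whose only automorphism is the identity. So it is not true that for every rational
vertex operator algebra `V` the group `Aut(V)` is finite if and only if `V_1 = 0`.

The definitions (vertex algebra, conformal vector, automorphisms, admissible modules, rationality)
are in `Pool.Agent.W345.VO.Defs`.
-/

namespace Pool.Agent.Results.MP_11a9fb_al.TrivialAutomorphisms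

open Pool.Agent.W345.VO

universe u

theorem result :
    (∃ (V : Type) (_ : AddCommGroup V) (_ : Module ℂ V) (A : VOA V),
      A.IsSimple ∧ IsRational.{u} A ∧ A.wt 1 ≠ ⊥ ∧ (∀ n : ℤ, n < 0 → A.wt n = ⊥) ∧
      (∀ g ∈ A.Aut, g = 1)) ∧
    ¬ ∀ (V : Type) [AddCommGroup V] [Module ℂ V] (A : VOA V), IsRational.{u} A →
      (Finite A.Aut ↔ A.wt 1 = ⊥) :=
  main

end Pool.Agent.Results.MP_11a9fb_al.TrivialAutomorphisms
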